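import Pool.Agent.Cofin67.PartC
import Pool.Agent.Cofin77.PartB

/-!
All three strict inequalities of the problem: Borel sigma-ideals on the Cantor space with
(a) cofinStar < cofinMinus and (b) cofinMinus < cofin if the bounding number is below the
groupwise density number, and (c) cofin < cofinPlus in ZFC.
-/

namespace Pool.Agent.Results.MP_66ab92_lc.AllThree

open Cardinal Ordinal Pool.Agent.Cofin67

theorem result :
    -- (a)
    (∃ I : Set (Set (ℕ → Bool)), IsBorelSigmaIdeal I ∧ (∀ x, {x} ∈ I) ∧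
      Set.univ ∉ I ∧ add I = bNum ∧
      cofinStar I = ((bNum.ord : Ordinal.{0}) : WithTop Ordinal.{0}) ∧
      ((gNum.ord : Ordinal.{0}) : WithTop Ordinal.{0}) ≤ cofinMinus I ∧
      cofin I = cofinMinus I ∧
      cofin I ≤ ((dNum.ord : Ordinal.{0}) : WithTop Ordinal.{0}) ∧
      (bNum < gNum → cofinStar I < cofinMinus I)) ∧
    -- (b)
    (∃ I : Set (Set (ℕ → Bool)), IsBorelSigmaIdeal I ∧ (∀ x, {x} ∈ I) ∧
      Set.univ ∉ I ∧ add I = bNum ∧
      cofinStar I = ((bNum.ord : Ordinal.{0}) : WithTop Ordinal.{0}) ∧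
      cofinMinus I = ((bNum.ord : Ordinal.{0}) : WithTop Ordinal.{0}) ∧
      ((gNum.ord : Ordinal.{0}) : WithTop Ordinal.{0}) ≤ cofin I ∧
      cofin I ≤ ((dNum.ord : Ordinal.{0}) : WithTop Ordinal.{0}) ∧
      (bNum < gNum → cofinMinus I < cofin I)) ∧
    -- (c)
    (∃ I : Set (Set (ℕ → Bool)), IsBorelSigmaIdeal I ∧ (∀ x, {x} ∈ I) ∧ Set.univ ∉ I ∧
      cofin I = ((ω₁ : Ordinal.{0}) : WithTop Ordinal.{0}) ∧ cofinPlus I = ⊤ ∧
      cofin I < cofinPlus I) ∧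
    ∀ J : Set (Set (ℕ → Bool)), IsBorelSigmaIdeal J → (∀ x, {x} ∈ J) →
      ∃ I : Set (Set (ℕ → Bool)), IsBorelSigmaIdeal I ∧ (∀ x, {x} ∈ I) ∧ Set.univ ∉ I ∧
        cofin I = ((ω₁ : Ordinal.{0}) : WithTop Ordinal.{0}) ∧ cofinPlus I = cofinPlus J ∧
        (ℵ₁ < add J → cofin I < cofinPlus I) := by
  refine ⟨partA, Pool.Agent.Cofin77.partB, ?_, partC.1⟩
  obtain ⟨I, h1, h2, h3, h4, h5⟩ := partC.2
  refine ⟨I, h1, h2, h3, h4, h5, ?_⟩
  rw [h4, h5]
  exact WithTop.coe_lt_top _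

end Pool.Agent.Results.MP_66ab92_lc.AllThree
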