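import Pool.Agent.Cofin67.Basic

/-!
For every ideal whose union is not a member, cofinStar equals the additivity.
-/

namespace Pool.Agent.Results.MP_66ab92_lc.StarEqAdd

open Cardinal Ordinal Pool.Agent.Cofin67

theorem result (X : Type) (I : Set (Set X)) (hI : IsIdeal I) (hU : ⋃₀ I ∉ I) :
    cofinStar I = ((add I).ord : WithTop Ordinal.{0}) :=
  cofinStar_eq_add hI hU

end Pool.Agent.Results.MP_66ab92_lc.StarEqAdd
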